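import Pool.Agent.Helper45.PQ.StU
import Pool.Agent.Helper53.PB.HypStd

/-!
Project PQ (MP_a1f43d_co), module OVP: the ovoids of the parabolic quadric of rank three in
characteristic three.
-/

set_option autoImplicit false

open Module Classical
open scoped LinearAlgebra.Projectivization

namespace Pool.Agent.Helper33.PQ

open Pool.Agent.Helper45.PQ
open Pool.Agent.Helper53.PB

universe u v

variable {F : Type u} {V : Type v} [Field F] [AddCommGroup V] [Module F V]

private theorem f_formula' {n : ℕ} (φ : Form F V) (hφ : φ.kind = .orthogonal) (e f : Fin n → V)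
    (g : V) (c : F)
    (hef : ∀ (x y : Fin n → F) (z : F),
      φ.q (∑ i, x i • e i + ∑ i, y i • f i + z • g) = ∑ i, x i * y i + c * (z * z))
    (x y x' y' : Fin n → F) (z z' : F) :
    φ.f (∑ i, x i • e i + ∑ i, y i • f i + z • g) (∑ i, x' i • e i + ∑ i, y' i • f i + z' • g) =
      ∑ i, x i * y' i + ∑ i, x' i * y i + 2 * c * (z * z') := by
  have h1 := orth_add φ hφ (∑ i, x i • e i + ∑ i, y i • f i + z • g)
    (∑ i, x' i • e i + ∑ i, y' i • f i + z' • g)
  have h2 : ∑ i, x i • e i + ∑ i, y i • f i + z • g +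
      (∑ i, x' i • e i + ∑ i, y' i • f i + z' • g) =
      ∑ i, (x i + x' i) • e i + ∑ i, (y i + y' i) • f i + (z + z') • g := by
    simp_rw [add_smul, Finset.sum_add_distrib]
    abel
  rw [h2, hef (fun i => x i + x' i) (fun i => y i + y' i), hef, hef] at h1
  have h3 : ∑ i, (x i + x' i) * (y i + y' i) =
      ∑ i, x i * y i + ∑ i, x' i * y' i + (∑ i, x i * y' i + ∑ i, x' i * y i) := by
    rw [← Finset.sum_add_distrib, ← Finset.sum_add_distrib, ← Finset.sum_add_distrib]
    apply Finset.sum_congr rfl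
    intro i _
    ring
  rw [h3] at h1
  linear_combination -h1

/-- no solution of `A² = ε B²` with `(A, B) ≠ 0` -/
private theorem ns {ε A B : F} (hε : ¬ IsSquare ε) (h : A * A = ε * (B * B)) : A = 0 ∧ B = 0 := by
  by_cases hB : B = 0
  · rw [hB, mul_zero, mul_zero] at h
    exact ⟨mul_self_eq_zero.1 h, hB⟩
  · exfalso
    apply hε
    refine ⟨A / B, ?_⟩
    field_simp
    linear_combination -h

/-- the polar form of two points, multiplied by `lam` -/
private theorem key (h3 : (3 : F) = 0) (ε a b z a' b' z' : F) :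
    (((a * a - ε * (b * b)) * (a * a - ε * (b * b)) - ε * (z * z)) +
      ((a' * a' - ε * (b' * b')) * (a' * a' - ε * (b' * b')) - ε * (z' * z')) +
      2 * (a * (a' * (a' * a' - ε * (b' * b')) + ε * (b' * z')) +
        a' * (a * (a * a - ε * (b * b)) + ε * (b * z))) +
      2 * ε * (b * (-(b' * (a' * a' - ε * (b' * b')) + a' * z')) +
        b' * (-(b * (a * a - ε * (b * b)) + a * z))) + 2 * ε * (z * z')) =
    ((a * a - ε * (b * b)) + (a' * a' - ε * (b' * b')) + (a * a' - ε * (b * b'))) *
      ((a * a - ε * (b * b)) + (a' * a' - ε * (b' * b')) + (a * a' - ε * (b * b'))) -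
      ε * ((z' - z - (a * b' - a' * b)) * (z' - z - (a * b' - a' * b))) := by
  linear_combination (-(a * a - ε * (b * b)) * (a' * a' - ε * (b' * b'))) * h3

theorem hOVP (hPBS : StPBS.{u, v}) : StOVP.{u, v} := by
  intro F _ _ V _ _ _ φ h hF h1 hφ hp
  have hprime : Fact (Nat.Prime 3) := ⟨Nat.prime_three⟩
  have hfF : Fintype F := Fintype.ofFinite F
  have hcardF : Fintype.card F = 3 ^ h := by rw [← Nat.card_eq_fintype_card, hF]
  have hcharF : CharP F 3 := charP_of_card_eq_prime_pow hcardF
  have h3F : (3 : F) = 0 := by exact_mod_cast CharP.cast_eq_zero F 3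
  have hring : ringChar F ≠ 2 := by
    rw [ringChar.eq F 3]
    norm_num
  obtain ⟨ε, hε⟩ := FiniteField.exists_nonsquare hring
  obtain ⟨e, f, g, c, hc, hef⟩ := hPBS F 3 V φ hφ hp
  have hε0 : ε ≠ 0 := by
    rintro rfl
    exact hε ⟨0, by ring⟩
  obtain ⟨l, hl⟩ : ∃ l : F, l = ε / c := ⟨_, rfl⟩
  have hl0 : l ≠ 0 := by
    rw [hl]
    exact div_ne_zero hε0 hc
  have hlc : l * c = ε := by
    rw [hl]
    field_simp
  obtain ⟨vx, hvx1, hvx2⟩ : ∃ vx : Option (F × F × F) → Fin 3 → F, vx none = 0 ∧
      ∀ t, vx (some t) = ![1, t.1, t.2.1] :=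
    ⟨fun t => match t with
      | none => 0
      | some t => ![1, t.1, t.2.1], rfl, fun _ => rfl⟩
  obtain ⟨vy, hvy1, hvy2⟩ : ∃ vy : Option (F × F × F) → Fin 3 → F, vy none = ![1, 0, 0] ∧
      ∀ a b z, vy (some (a, b, z)) =
        ![l⁻¹ * ((a * a - ε * (b * b)) * (a * a - ε * (b * b)) - ε * (z * z)),
          l⁻¹ * (2 * (a * (a * a - ε * (b * b)) + ε * (b * z))),
          l⁻¹ * (2 * ε * (-(b * (a * a - ε * (b * b)) + a * z)))] :=
    ⟨fun t => match t with
      | none => ![1, 0, 0]
      | some (a, b, z) => ![l⁻¹ * ((a * a - ε * (b * b)) * (a * a - ε * (b * b)) - ε * (z * z)),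
          l⁻¹ * (2 * (a * (a * a - ε * (b * b)) + ε * (b * z))),
          l⁻¹ * (2 * ε * (-(b * (a * a - ε * (b * b)) + a * z)))], rfl, fun _ _ _ => rfl⟩
  obtain ⟨vz, hvz1, hvz2⟩ : ∃ vz : Option (F × F × F) → F, vz none = 0 ∧
      ∀ a b z, vz (some (a, b, z)) = z :=
    ⟨fun t => match t with
      | none => 0
      | some t => t.2.2, rfl, fun _ _ _ => rfl⟩
  obtain ⟨vec, hvec⟩ : ∃ vec : Option (F × F × F) → V,
      vec = fun t => ∑ i, vx t i • e i + ∑ i, vy t i • f i + vz t • g := ⟨_, rfl⟩
  have hq : ∀ t, φ.q (vec t) = 0 := by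
    intro t
    rw [hvec, hef]
    cases t with
    | none =>
      rw [hvx1, hvz1]
      simp
    | some t =>
      obtain ⟨a, b, z⟩ := t
      rw [hvx2, hvy2, hvz2]
      simp only [Fin.sum_univ_three, Matrix.cons_val_zero, Matrix.cons_val_one, Matrix.cons_val]
      apply mul_left_cancel₀ hl0
      have hli : l * l⁻¹ = 1 := mul_inv_cancel₀ hl0
      linear_combination (((a * a - ε * (b * b)) * (a * a - ε * (b * b)) - ε * (z * z)) +
        a * (2 * (a * (a * a - ε * (b * b)) + ε * (b * z))) +
        b * (2 * ε * (-(b * (a * a - ε * (b * b)) + a * z)))) * hli + (z * z) * hlc +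
        ((a * a - ε * (b * b)) * (a * a - ε * (b * b))) * h3F
  have hf : ∀ s t, s ≠ t → φ.f (vec s) (vec t) ≠ 0 := by
    intro s t hst
    rw [hvec]
    simp only
    rw [f_formula' φ hφ e f g c hef]
    cases s with
    | none =>
      cases t with
      | none => exact absurd rfl hst
      | some t =>
        obtain ⟨a, b, z⟩ := t
        rw [hvx1, hvx2, hvy1, hvz1]
        simp [Fin.sum_univ_three]
    | some s =>
      obtain ⟨a, b, z⟩ := s
      cases t with
      | none =>
        rw [hvx1, hvx2, hvy1, hvz1]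
        simp [Fin.sum_univ_three]
      | some t =>
        obtain ⟨a', b', z'⟩ := t
        rw [hvx2, hvx2, hvy2, hvy2, hvz2, hvz2]
        simp only [Fin.sum_univ_three, Matrix.cons_val_zero, Matrix.cons_val_one, Matrix.cons_val]
        intro h0
        have hli : l * l⁻¹ = 1 := mul_inv_cancel₀ hl0
        have hk := key h3F ε a b z a' b' z'
        have hz : ((a * a - ε * (b * b)) + (a' * a' - ε * (b' * b')) + (a * a' - ε * (b * b'))) *
            ((a * a - ε * (b * b)) + (a' * a' - ε * (b' * b')) + (a * a' - ε * (b * b'))) =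
            ε * ((z' - z - (a * b' - a' * b)) * (z' - z - (a * b' - a' * b))) := by
          rw [← sub_eq_zero, ← hk]
          linear_combination l * h0 -
            ((((a * a - ε * (b * b)) * (a * a - ε * (b * b)) - ε * (z * z)) +
            ((a' * a' - ε * (b' * b')) * (a' * a' - ε * (b' * b')) - ε * (z' * z')) +
            2 * (a * (a' * (a' * a' - ε * (b' * b')) + ε * (b' * z')) +
              a' * (a * (a * a - ε * (b * b)) + ε * (b * z))) +
            2 * ε * (b * (-(b' * (a' * a' - ε * (b' * b')) + a' * z')) +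
              b' * (-(b * (a * a - ε * (b * b)) + a * z))))) * hli - 2 * (z * z') * hlc
        obtain ⟨hA, hB⟩ := ns hε hz
        have hab : (a - a') * (a - a') = ε * ((b - b') * (b - b')) := by
          linear_combination hA - (a * a' - ε * (b * b')) * h3F
        obtain ⟨ha, hb⟩ := ns hε hab
        have ha' : a = a' := sub_eq_zero.1 ha
        have hb' : b = b' := sub_eq_zero.1 hb
        subst ha'
        subst hb'
        apply hst
        have hz' : z = z' := by linear_combination -hB
        rw [hz']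
  have hvec0 : ∀ t, vec t ≠ 0 := by
    intro t h0
    obtain ⟨s, hs⟩ : ∃ s : Option (F × F × F), s ≠ t := by
      cases t with
      | none => exact ⟨some 0, by simp⟩
      | some t => exact ⟨none, by simp⟩
    apply hf s t hs
    rw [h0, map_zero]
  obtain ⟨O, hO⟩ : ∃ O : Option (F × F × F) → ℙ F V,
      O = fun t => Projectivization.mk F (vec t) (hvec0 t) := ⟨_, rfl⟩
  have hrep : ∀ t, ∃ c : F, c ≠ 0 ∧ (O t).rep = c • vec t := by
    intro t
    obtain ⟨a, ha⟩ := Projectivization.exists_smul_eq_mk_rep F (vec t) (hvec0 t)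
    refine ⟨a, a.ne_zero, ?_⟩
    rw [hO]
    exact ha.symm
  have hOf : ∀ s t, s ≠ t → φ.f (O s).rep (O t).rep ≠ 0 := by
    intro s t hst
    obtain ⟨c, hc, hc2⟩ := hrep s
    obtain ⟨d, hd, hd2⟩ := hrep t
    rw [hc2, hd2, orth_f_smul φ hφ, map_smul, smul_eq_mul]
    exact mul_ne_zero hc (mul_ne_zero hd (hf s t hst))
  have hOs : ∀ t, φ.Sing (O t).rep := by
    intro t
    obtain ⟨c, hc, hc2⟩ := hrep t
    rw [hc2, orth_sing φ hφ, orth_smul φ hφ, hq, mul_zero]
  have hOinj : Function.Injective O := by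
    intro s t hst
    by_contra hne
    apply hOf s t hne
    rw [hst]
    exact φ.toPolar.sing_self _ (hOs t)
  have hcard : (Finset.univ.image O).card = Nat.card F ^ 3 + 1 := by
    rw [Finset.card_image_of_injective _ hOinj, Finset.card_univ, Fintype.card_option,
      Nat.card_eq_fintype_card, Fintype.card_prod, Fintype.card_prod]
    ring
  refine ⟨Finset.univ.image O, ?_, ?_, hcard⟩
  · intro y hy
    obtain ⟨t, _, rfl⟩ := Finset.mem_image.1 hy
    exact hOs t
  · intro x hx y hy hxy
    obtain ⟨s, _, rfl⟩ := Finset.mem_image.1 hx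
    obtain ⟨t, _, rfl⟩ := Finset.mem_image.1 hy
    exact hOf s t (fun h => hxy (by rw [h]))

end Pool.Agent.Helper33.PQ
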